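import Mathlib
import Pool.Agent.R359.OrdProd

/-!
# MP_d97c10_lc: finite products of ordinal frames

For all ordinals `α 0, …, α (k-1)`, nonzero, the modal algebras of the direct products
`∏ (α i, ≤)` and `∏ (α i, <)` are locally finite, and the logics of these two frames have the
finite model property.  This answers Q1 and Q2 affirmatively.
-/

namespace Pool.Agent.Results.MP_d97c10_lc.ProductsOfOrdinals

open Pool.Agent.R359.OrdProd

universe u

/-- The points of the product of the ordinals `α 0, …, α (k-1)`: an ordinal is regarded as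
the set of smaller ordinals. -/
abbrev Pt {k : ℕ} (α : Fin k → Ordinal.{u}) : Type (u + 1) := ∀ i, Set.Iio (α i)

/-- The relation of the direct product `∏ (α i, ≤)`. -/
def prodLe {k : ℕ} (α : Fin k → Ordinal.{u}) (x y : Pt α) : Prop :=
  ∀ i, (x i : Ordinal.{u}) ≤ (y i : Ordinal.{u})

/-- The relation of the direct product `∏ (α i, <)`. -/
def prodLt {k : ℕ} (α : Fin k → Ordinal.{u}) (x y : Pt α) : Prop :=
  ∀ i, (x i : Ordinal.{u}) < (y i : Ordinal.{u})

theorem result :
    ∀ (k : ℕ) (α : Fin k → Ordinal.{u}), (∀ i, α i ≠ 0) →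
      LocFiniteAlg (prodLe α) ∧ LocFiniteAlg (prodLt α) ∧
        HasFMP (Log (prodLe α)) ∧ HasFMP (Log (prodLt α)) := by
  intro k α hα
  have hne : ∀ i, Nonempty (Set.Iio (α i)) := fun i =>
    ⟨⟨0, Set.mem_Iio.2 (pos_iff_ne_zero.2 (hα i))⟩⟩
  have hne' : Nonempty (Pt α) := ⟨fun i => Classical.choice (hne i)⟩
  have h1 : HasTuned (prodLe α) := by
    intro C _ c
    obtain ⟨D, hD, d, hc, h1, -⟩ := exists_tuned (W := fun i => Set.Iio (α i)) C c
    exact ⟨D, hD, d, hc, h1⟩
  have h2 : HasTuned (prodLt α) := by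
    intro C _ c
    obtain ⟨D, hD, d, hc, -, h2⟩ := exists_tuned (W := fun i => Set.Iio (α i)) C c
    exact ⟨D, hD, d, hc, h2⟩
  exact ⟨locFinite_of_hasTuned h1, locFinite_of_hasTuned h2,
    hasFMP_of_hasTuned h1, hasFMP_of_hasTuned h2⟩

end Pool.Agent.Results.MP_d97c10_lc.ProductsOfOrdinals
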